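import Mathlib
import Pool.Agent.R836.Elem6

/-!
# There are infinitely many elementary components of the Hilbert schemes of points of `𝔸³`

`HilbertScheme k B r` is a `k`-scheme `H` representing the Hilbert functor of `r` points of the
affine scheme `Spec B`; here `B` is the polynomial ring in three variables. An irreducible component
is elementary if its general point is supported at a single point of `𝔸³`; since this is a closed
condition, it is the same to ask it for all points, which is what the definition below does.

Proof. Let `e(r)` be the dimension of the Hilbert scheme of `r` points. A general point of a component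
which is not elementary is a disjoint union of two nonempty subschemes, of lengths `a` and `b`,
`a + b = r`, and it is defined over the compositum of their fields of definition: so the
component has dimension at most `e(a) + e(b)`. If there were no elementary components for `r > R`
then it would follow that `e(r) ≤ (3 R + 1) r` for all `r`. But the ideals between two
consecutive powers of the maximal ideal show that `e(r)` grows at least like `r ^ (4 / 3)`
(Iarrobino). All dimensions are computed as transcendence degrees of fields of definition.
-/

set_option autoImplicit false

open CategoryTheory AlgebraicGeometry Pool.Agent.Helper226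

universe u

namespace Pool.Agent.Results.MP_5ec99c_ag.InfinitelyManyElementary

/-- The set `Z` of points of the Hilbert scheme of `r` points of affine `3`-space is elementary: it
contains closed points, and all the closed subschemes of length `r` which correspond to closed points
of `Z` are supported at a single point, that is, the radicals of their ideals are maximal ideals. -/
def IsElementary {k : Type u} [Field k] {r : ℕ} (𝓗 : HilbertScheme k (MvPolynomial (Fin 3) k) r)
    (Z : Set 𝓗.H) : Prop :=
  (∃ f : PointsOver k 𝓗.H 𝓗.s k, Set.range f.1 ⊆ Z) ∧
    ∀ f : PointsOver k 𝓗.H 𝓗.s k, Set.range f.1 ⊆ Z → (𝓗.idealOf f).radical.IsMaximal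

/-- Let `k` be an algebraically closed field of any characteristic. For every `R` there is an
`r > R` such that the Hilbert scheme of `r` points of affine `3`-space over `k` (which exists, and
is unique up to isomorphism) has an elementary irreducible component. So the set of the pairs
`(r, C)`, `C` an elementary component of `Hilb_r(𝔸³)`, is infinite. -/
theorem result (k : Type u) [Field k] [IsAlgClosed k] (R : ℕ) :
    ∃ r : ℕ, R < r ∧ Nonempty (HilbertScheme k (MvPolynomial (Fin 3) k) r) ∧
      ∀ 𝓗 : HilbertScheme k (MvPolynomial (Fin 3) k) r,
        ∃ C ∈ irreducibleComponents 𝓗.H, IsElementary 𝓗 C := by
  obtain ⟨r, hr, h⟩ := Pool.Agent.R836.Elem.exists_elementary k R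
  refine ⟨r, hr, ⟨hilb k _ r⟩, fun 𝓗 => ?_⟩
  obtain ⟨C, hC, hel⟩ := h 𝓗
  exact ⟨C, hC, Pool.Agent.R836.Elem.exists_point' 𝓗 C hC, hel⟩

end Pool.Agent.Results.MP_5ec99c_ag.InfinitelyManyElementary
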